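import Pool.Agent.Helper22.G4.GenFam
import Pool.Agent.Helper22.G4.St.P2
import Pool.Agent.Helper22.G4.St.H2
import Pool.Agent.Helper22.G4.St.H3
import Pool.Agent.Helper22.G4.St.H4

/-! # G4-H5: what the graph forces -/

namespace Pool.Agent.Helper32.G4

open Pool.Agent.Helper22.G4
open Submodule

variable {α φ : Type} [DecidableEq α] [DecidableEq φ]

omit [DecidableEq α] [DecidableEq φ] in
lemma face_pull {c : W α φ → E5} {A : Finset (W α φ)} {V : Finset α} {Z' : Set (W α φ)}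
    {Z : Set α} (hB : ∀ a ∈ V, W.v a ∈ A) (h : FaceOn c A Z') (hZ : Z ⊆ V)
    (hZZ : ∀ a ∈ V, (W.v a : W α φ) ∈ Z' ↔ a ∈ Z) : FaceOn (fun a => c (W.v a)) V Z := by
  obtain ⟨_, f, h1, h2⟩ := h
  exact ⟨hZ, f, fun a ha => h1 _ (hB a ha), fun a ha => (h2 _ (hB a ha)).trans (hZZ a ha)⟩

omit [DecidableEq α] [DecidableEq φ] in
lemma rk_pull (c : W α φ → E5) (Z' : Set (W α φ)) (Z : Set α)
    (h : Z' = (W.v : α → W α φ) '' Z) : rk (fun a => c (W.v a)) Z = rk c Z' := by
  unfold rk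
  rw [h, Set.image_image]

omit [DecidableEq α] in
lemma mem_of_cycPairs {l : List α} {e : α × α} (h : e ∈ cycPairs l) : e.1 ∈ l ∧ e.2 ∈ l := by
  unfold cycPairs at h
  have h1 := List.of_mem_zip (a := e.1) (b := e.2) h
  refine ⟨h1.1, ?_⟩
  rcases List.mem_append.1 h1.2 with h2 | h2
  · exact List.mem_of_mem_tail h2
  · exact List.mem_of_mem_take h2

omit [DecidableEq α] [DecidableEq φ] in
lemma v_mem_l3 (D : Data α φ) {a : α} (ha : a ∈ D.verts) : (W.v a : W α φ) ∈ D.l3 := by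
  unfold Data.l3 Data.l2 Data.l1 Data.l0
  simp only [List.mem_append, List.mem_map]
  exact Or.inl (Or.inl (Or.inl ⟨a, ha, rfl⟩))

/-- G4-H5 (assembly: what the graph forces). -/
theorem gen_model {D : Data α φ} (hD : D.Good) (h : ConicGraph D.allX.toFinset D.adjX) :
    ∃ c : α → E5, D.Model c := by
  obtain ⟨c, hc, hs, ha, hT⟩ := gen_remove hD h
  have hB : ∀ a ∈ D.verts.toFinset, (W.v a : W α φ) ∈ D.l3.toFinset := by
    intro a h
    rw [List.mem_toFinset] at h ⊢
    exact v_mem_l3 D h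
  have hsub : ∀ R ∈ D.flats, {a | a ∈ R.1} ⊆ (D.verts.toFinset : Set α) := by
    intro R hR a h
    exact List.mem_toFinset.2 (hD.sub R hR a h)
  have hfl := gen_flat hD hc hs ha hT
  have hfs : ∀ f, D.Fs f = (W.v : α → W α φ) '' {a | a ∈ D.verts ∧ D.mem f a} := by
    intro f
    ext w
    constructor
    · rintro ⟨a, h1, h2, rfl⟩
      exact ⟨a, ⟨h1, h2⟩, rfl⟩
    · rintro ⟨a, ⟨h1, h2⟩, rfl⟩
      exact ⟨a, h1, h2, rfl⟩
  refine ⟨fun a => c (W.v a), ⟨⟨?_, ?_⟩, ?_, ?_, ?_, ?_, ?_⟩⟩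
  · obtain ⟨g, hg⟩ := hc.pos
    exact ⟨g, fun w hw => hg _ (hB w hw)⟩
  · intro v hv
    refine face_pull hB (hc.vert _ (hB v hv)) ?_ ?_
    · rw [Set.singleton_subset_iff]; exact hv
    · intro a _
      rw [Set.mem_singleton_iff, Set.mem_singleton_iff]
      exact Sum.inl_injective.eq_iff
  · intro R hR
    refine face_pull hB (hfl R hR).1 (hsub R hR) ?_
    intro a _
    constructor
    · rintro ⟨b, hb, h⟩
      rw [Sum.inl_injective h]; exact hb
    · intro h
      exact ⟨a, h, rfl⟩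
  · intro R hR
    rw [← (hfl R hR).2]
    refine rk_pull c _ _ ?_
    ext w
    constructor
    · rintro ⟨a, h1, rfl⟩
      exact ⟨a, h1, rfl⟩
    · rintro ⟨a, h1, rfl⟩
      exact ⟨a, h1, rfl⟩
  · intro R hR e he
    have h1 := mem_of_cycPairs he
    have h2 := hD.edge R hR e he
    have h3 := hD.sub R hR _ h1.1
    have h4 := hD.sub R hR _ h1.2
    have h5 : FaceOn c D.l3.toFinset {W.v e.1, W.v e.2} := by
      refine (ha (W.v e.1) (v_mem_l3 D h3) (W.v e.2) (v_mem_l3 D h4) ?_).2 h2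
      exact fun h => h2.1 (Sum.inl_injective h)
    refine face_pull hB h5 ?_ ?_
    · rintro a (rfl | rfl)
      · exact List.mem_toFinset.2 h3
      · exact List.mem_toFinset.2 h4
    · intro a _
      simp only [Set.mem_insert_iff, Set.mem_singleton_iff]
      exact or_congr Sum.inl_injective.eq_iff Sum.inl_injective.eq_iff
  · intro f hf
    have h1 := gen_free hD hc hs ha hf
    refine face_pull (A := D.l3.toFinset.erase (W.x f)) ?_ h1.1 ?_ ?_
    · intro a h
      exact Finset.mem_erase.2 ⟨by simp, hB a h⟩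
    · rintro a ⟨h2, -⟩
      exact List.mem_toFinset.2 h2
    · intro a _
      rw [hfs]
      exact Sum.inl_injective.mem_set_image
  · intro f hf
    rw [← (gen_free hD hc hs ha hf).2]
    exact rk_pull c _ _ (hfs f)

end Pool.Agent.Helper32.G4
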